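import Pool.Agent.Helper74_RL.Stmts

/-!
# DET and BIH (helper63, MP_62da59_gt, part II)
-/

noncomputable section

open scoped ContDiff Topology ENNReal NNReal RealInnerProductSpace BoundedContinuousFunction
set_option maxSynthPendingDepth 3
open Set Metric

namespace Pool.Agent.RLim.H63

open Pool.Agent.RLim Pool.Agent.RF

/-- DET: no complement of a small set is a topological manifold -/
theorem det (hS2n : S2nStmt) (hOpn : OpnStmt) (hChn : ChnStmt) (hTub : TubStmt)
    (hSph : SphStmt) (hDns : DnsStmt) (hKpt : KptStmt) : DetStmt := by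
  intro D S hS
  refine ⟨fun CS => hS2n ?_⟩
  have hT : IsOpen (Sᶜ : Set (BlI D)) := hOpn _ _ (hDns D S hS) ⟨CS⟩
  obtain ⟨y, hyS, hyK⟩ := hKpt D S hS
  obtain ⟨O, -, -, hyO, hO, hOc⟩ := hChn _ _ hT ⟨CS⟩ y hyS univ Filter.univ_mem
  obtain ⟨ε, hε, hball⟩ := Metric.isOpen_iff.1 hO y hyO
  -- the tails are small
  obtain ⟨N, hN⟩ : ∃ N : ℕ, (1 / 2 : ℝ) ^ N < ε := exists_pow_lt_of_lt_one hε (by norm_num)
  have hw : ∀ k ≥ N, 4 * D.w k < ε := by
    intro k hk
    have h1 := D.w_le k
    have h2 := D.s_le k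
    have h3 : (1 : ℝ) / 2 ^ (k + 3) ≤ (1 / 2) ^ N := by
      rw [one_div_pow]
      refine one_div_le_one_div_of_le (by positivity) ?_
      exact pow_le_pow_right₀ (by norm_num) (by omega)
    have h4 := D.w_pos k
    linarith
  obtain ⟨δ, hδ, htub⟩ := hTub D y.1.1 N ε hε (fun k _ => D.K_ne _ hyK k) hw
  obtain ⟨l, -, hl⟩ := D.K_acc _ hyK δ hδ 0
  obtain ⟨hs1, hs2, hs3, hs4⟩ := hSph D l
  -- the sphere `l` is contained in `O`
  have hin : ∀ v : sphere (0 : E3) 1, sphI D l v ∈ O := by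
    intro v
    apply hball
    rw [mem_ball, dist_comm]
    refine htub y (sphI D l v) (by simpa using hδ) ?_
    rw [(hs4 v).2, ← dist_eq_norm]
    exact hl
  let i : C(sphere (0 : E3) 1, O) := ⟨fun v => ⟨sphI D l v, hin v⟩, hs1.subtype_mk _⟩
  let r : C(O, sphere (0 : E3) 1) :=
    ⟨fun p => ⟨(D.w l)⁻¹ • p.1.1.2 l, mem_sphere_zero_iff_norm.2 (hs3 p.1)⟩,
      (hs2.comp continuous_subtype_val).subtype_mk _⟩
  have hri : (r.comp i) = ContinuousMap.id _ := by
    ext1 v
    apply Subtype.ext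
    exact (hs4 v).1
  have h0 : (r.comp ((ContinuousMap.id O).comp i)).Nullhomotopic :=
    ((id_nullhomotopic O).comp_left i).comp_right r
  rw [ContinuousMap.id_comp, hri] at h0
  exact h0

/-- BIH: Hausdorff dimension for the distance `bilMet` -/
theorem bih : BihStmt := by
  intro Y inst d c C h S
  have hL : @LipschitzWith Y Y (bilMet h).toPseudoMetricSpace.toPseudoEMetricSpace
      inst.toPseudoMetricSpace.toPseudoEMetricSpace (c⁻¹).toNNReal id := by
    refine @LipschitzWith.of_dist_le_mul Y Y (bilMet h).toPseudoMetricSpace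
      inst.toPseudoMetricSpace _ id fun x y => ?_
    rw [Real.coe_toNNReal _ (inv_nonneg.2 h.c_pos.le)]
    have h1 := h.low x y
    have h2 : @dist Y inst.toPseudoMetricSpace.toDist (id x) (id y) ≤ c⁻¹ * d x y := by
      rw [inv_mul_eq_div, le_div_iff₀ h.c_pos, mul_comm]
      exact h1
    exact h2
  have h3 := @LipschitzWith.dimH_image_le Y Y (bilMet h).toEMetricSpace _ _ _ hL S
  rwa [image_id] at h3

end Pool.Agent.RLim.H63
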